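import Pool.Agent.NH7.GF.All
import Pool.Agent.NH7.GF.UlimP
import Pool.Agent.NH7.GF.LftP
import Pool.Agent.NH7.GF.CptP
import Pool.Agent.NH7.GF.LclP
import Pool.Agent.NH7.GF.AvgP
import Pool.Agent.NH7.GF.UpP
import Pool.Agent.NH7.GF.DnP
import Pool.Agent.NH7.GF.RkP
import Pool.Agent.NH7.GH.UpW

/-!
# Cyclic extensions of global function fields in which no rank and no Tate-Shafarevich group grows

Let `K` be a global function field and `p` an odd prime number such that `K` contains a primitive
`p`-th root of unity (so `p` is not the characteristic). Let `S` be a finite set of places of `K`.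

Theorem: there are infinitely many cyclic extensions `L / K` of degree `p`, with prescribed completions
at finitely many places, such that

* for **all** `N` and **all** continuous representations `ρ : G_K → GL_N(ℤ_p)` which are congruent to `1`
  modulo `p` and unramified outside `S`, the Selmer group of `V = ℚ_p ^ N` over `L` (classes which are
  zero at the places above `S` and unramified elsewhere) is the image of the Selmer group over `K`;
* for **all** Galois modules `M` which have the properties of the group `A(K^sep)` of the points of an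
  abelian variety `A / K` with good reduction outside `S` all of whose points of order `p` are rational,
  the group of the points over `L` has the same rank as the group of the points over `K`, and the
  restriction is an isomorphism of the rational `p`-adic Tate modules of the Tate-Shafarevich groups; in
  particular the Tate module over `L` is zero if and only if that over `K` is zero.

(The `p`-primary part of the Tate-Shafarevich group `Ш(A/L)` is of cofinite type, so its Tate module is
zero if and only if it is finite; by Kato and Trihan this is the case if and only if `Ш(A/L)` is finite.)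
-/

set_option autoImplicit false

namespace Pool.Agent.Results.MP_72e2e6_nt.GoingUpResiduallyTrivial

/-! ### Places, Galois groups, decomposition groups and inertia groups -/

section basic

variable {K Ω : Type} [Field K] [Field Ω] [Algebra K Ω]

variable (K Ω) in
/-- The Galois group of the extension `Ω / K`. In the theorem `Ω` is a separable closure of `K`, so this
is the absolute Galois group of `K`. -/
abbrev Gal : Type := Ω ≃ₐ[K] Ω

/-- The absolute Galois group of the field `L` between `K` and `Ω`. -/
abbrev GalL (L : IntermediateField K Ω) : Type := L.fixingSubgroup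

variable (K) in
/-- A place of the global function field `K`: a valuation ring of `K` other than `K` itself. -/
abbrev Place : Type := {O : ValuationSubring K // O ≠ ⊤}

/-- The valuation ring `A` of `Ω` lies above the place `v` of `K`. -/
def Above (A : ValuationSubring Ω) (v : Place K) : Prop := A.comap (algebraMap K Ω) = v.1

variable (K) in
/-- The decomposition group of the valuation ring `A`: the `σ` such that `σ A = A`. -/
def Dec (A : ValuationSubring Ω) : Set (Gal K Ω) := {σ | ∀ x, σ x ∈ A ↔ x ∈ A}

variable (K) in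
/-- The inertia group of `A`: the `σ` in the decomposition group such that `σ x` is congruent to `x`
modulo the maximal ideal of `A` for all `x` in `A`. -/
def Inr (A : ValuationSubring Ω) : Set (Gal K Ω) :=
  {σ | (∀ x, σ x ∈ A ↔ x ∈ A) ∧ ∀ x ∈ A, A.valuation (σ x - x) < 1}

/-- The fields `L` and `L'` have the same completions above the place `v` of `K`: an element `σ` of a
decomposition group above `v` fixes `L` if and only if it fixes `L'`; that is, `L K_v = L' K_v`. -/
def SameCompletions (L L' : IntermediateField K Ω) (v : Place K) : Prop :=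
  ∀ A : ValuationSubring Ω, Above A v → ∀ σ ∈ Dec K A,
    ((∀ x ∈ L, σ x = x) ↔ ∀ x ∈ L', σ x = x)

/-- The place `v` of `K` splits completely in `L`: all decomposition groups above `v` fix `L`. -/
def Splits (L : IntermediateField K Ω) (v : Place K) : Prop :=
  ∀ A : ValuationSubring Ω, Above A v → ∀ σ ∈ Dec K A, ∀ x ∈ L, σ x = x

end basic

/-! ### The representations and their Selmer groups -/

section rep

variable {K Ω : Type} [Field K] [Field Ω] [Algebra K Ω] {p : ℕ} [Fact p.Prime] {N : ℕ}

/-- `ρ` is a continuous representation of the absolute Galois group of `K` on `ℤ_p ^ N`, trivial modulo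
`p` and unramified outside `S`. -/
structure IsRep (S : Set (Place K)) (ρ : Gal K Ω →* Matrix (Fin N) (Fin N) ℤ_[p]) : Prop where
  cont : Continuous ρ
  congr : ∀ σ i j, (p : ℤ_[p]) ∣ (ρ σ - 1) i j
  unramified : ∀ v ∉ S, ∀ A : ValuationSubring Ω, Above A v → ∀ σ ∈ Inr K A, ρ σ = 1

/-- The action on `V = ℚ_p ^ N`. -/
noncomputable def act (ρ : Gal K Ω →* Matrix (Fin N) (Fin N) ℤ_[p]) (σ : Gal K Ω)
    (x : Fin N → ℚ_[p]) : Fin N → ℚ_[p] :=
  ((ρ σ).map (algebraMap ℤ_[p] ℚ_[p])).mulVec x

variable {L : IntermediateField K Ω}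

/-- The continuous cocycles of the absolute Galois group of `L` with values in `V`. -/
structure IsCocycle (ρ : Gal K Ω →* Matrix (Fin N) (Fin N) ℤ_[p]) (c : GalL L → Fin N → ℚ_[p]) :
    Prop where
  cont : Continuous c
  mul : ∀ σ τ, c (σ * τ) = c σ + act ρ σ (c τ)

/-- The restriction of `c` to the subset `D` is a coboundary with values in `V`. -/
def TrivialOn (ρ : Gal K Ω →* Matrix (Fin N) (Fin N) ℤ_[p]) (D : Set (Gal K Ω))
    (c : GalL L → Fin N → ℚ_[p]) : Prop :=
  ∃ x : Fin N → ℚ_[p], ∀ σ : GalL L, (σ : Gal K Ω) ∈ D → c σ = act ρ σ x - x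

/-- The local conditions: the class is zero at the places above `S` and unramified at the others. -/
structure InSelmer (S : Set (Place K)) (ρ : Gal K Ω →* Matrix (Fin N) (Fin N) ℤ_[p])
    (c : GalL L → Fin N → ℚ_[p]) : Prop where
  strict : ∀ v ∈ S, ∀ A : ValuationSubring Ω, Above A v → TrivialOn ρ (Dec K A) c
  outside : ∀ v ∉ S, ∀ A : ValuationSubring Ω, Above A v → TrivialOn ρ (Inr K A) c

/-- The Selmer group of `V` over `L` is the image of the Selmer group of `V` over `K`: every cocycle
`c` in the first one differs by a coboundary from the restriction of a cocycle `c'` in the second one. -/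
def SelmerComesFromBase (S : Set (Place K)) (ρ : Gal K Ω →* Matrix (Fin N) (Fin N) ℤ_[p])
    (L : IntermediateField K Ω) : Prop :=
  ∀ c : GalL L → Fin N → ℚ_[p], IsCocycle ρ c → InSelmer S ρ c →
    ∃ c' : GalL (⊥ : IntermediateField K Ω) → Fin N → ℚ_[p], IsCocycle ρ c' ∧
      InSelmer S ρ c' ∧ ∃ x : Fin N → ℚ_[p],
        ∀ (σ : GalL L) (τ : GalL (⊥ : IntermediateField K Ω)),
          (τ : Gal K Ω) = (σ : Gal K Ω) → c σ = c' τ + (act ρ σ x - x)

end rep

/-! ### The Galois modules, their points and their Tate-Shafarevich groups -/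

section mod

variable {K Ω : Type} [Field K] [Field Ω] [Algebra K Ω]

/-- The elements of `M` which are fixed by the subset `U` of the Galois group. -/
def Fixed (M : Type) [AddCommGroup M] [DistribMulAction (Gal K Ω) M] (U : Set (Gal K Ω)) :
    AddSubgroup M where
  carrier := {P | ∀ σ ∈ U, σ • P = P}
  add_mem' := fun {a b} ha hb g hg => by rw [smul_add, ha g hg, hb g hg]
  zero_mem' := fun g _ => smul_zero g
  neg_mem' := fun {a} ha g hg => by rw [smul_neg, ha g hg]

/-- The torsion of `p`-power order of `M` is `ℚ_p ^ N / ℤ_p ^ N` (by means of `φ`), with a continuous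
representation `ρ` of the Galois group on `ℤ_p ^ N`, trivial modulo `p` and unramified outside `S`. -/
structure HasTateModule (M : Type) [AddCommGroup M] [DistribMulAction (Gal K Ω) M]
    (S : Set (Place K)) {p : ℕ} [Fact p.Prime] {N : ℕ}
    (ρ : Gal K Ω →* Matrix (Fin N) (Fin N) ℤ_[p]) (φ : (Fin N → ℚ_[p]) →+ M) : Prop where
  isRep : IsRep S ρ
  kernel : ∀ x, φ x = 0 ↔ ∀ j, ‖x j‖ ≤ 1
  image : ∀ (P : M) (n : ℕ), p ^ n • P = 0 → ∃ x, φ x = P
  equivariant : ∀ σ x, φ (act ρ σ x) = σ • φ x

/-- The module `M` has the following properties of the group `A(K^sep)` of the points of an abelian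
variety `A` over the global function field `K` with good reduction outside `S` all of whose points of
order `p` are rational:
* every point is defined over a finite extension of `K`;
* `M` is divisible by `p`;
* the torsion of `p`-power order comes from the Tate module, see `HasTateModule`;
* the group of the points over the henselization of a finite extension of `K` at one of its places is
  divisible by `p` up to torsion;
* the group of the points over a finite extension of `K` is finitely generated (Mordell-Weil). -/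
structure LikePoints (Ω : Type) [Field Ω] [Algebra K Ω] (M : Type) [AddCommGroup M] [DistribMulAction (Gal K Ω) M]
    (S : Set (Place K)) (p : ℕ) [Fact p.Prime] : Prop where
  open_stabilizer : ∀ P : M, IsOpen {σ : Gal K Ω | σ • P = P}
  divisible : ∀ P : M, ∃ Q : M, p • Q = P
  torsion : ∃ (N : ℕ) (ρ : Gal K Ω →* Matrix (Fin N) (Fin N) ℤ_[p]) (φ : (Fin N → ℚ_[p]) →+ M),
    HasTateModule M S ρ φ
  local_points : ∀ A : ValuationSubring Ω, A ≠ ⊤ → ∀ U : Subgroup (Gal K Ω),
    IsOpen (U : Set (Gal K Ω)) → ∀ P ∈ Fixed M (Dec K A ∩ U), ∀ n : ℕ,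
      ∃ Q ∈ Fixed M (Dec K A ∩ U), ∃ m : ℕ, p ^ m • (P - p ^ n • Q) = 0
  mordell_weil : ∀ U : Subgroup (Gal K Ω), IsOpen (U : Set (Gal K Ω)) →
    (Fixed M (U : Set (Gal K Ω))).FG

variable {M : Type} [AddCommGroup M] [DistribMulAction (Gal K Ω) M] {L : IntermediateField K Ω}

/-- The continuous cocycles of the absolute Galois group of `L` with values in the discrete
module `M`. -/
structure IsDiscreteCocycle (f : GalL L → M) : Prop where
  cont : IsLocallyConstant f
  mul : ∀ σ τ : GalL L, f (σ * τ) = f σ + (σ : Gal K Ω) • f τ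

/-- The restriction of `f` to the subset `D` is a coboundary with values in `M`. -/
def CoboundaryOn (D : Set (Gal K Ω)) (f : GalL L → M) : Prop :=
  ∃ P : M, ∀ σ : GalL L, (σ : Gal K Ω) ∈ D → f σ = (σ : Gal K Ω) • P - P

/-- The class of `f` is in the Tate-Shafarevich group of `M` over `L`: its restrictions to all
decomposition groups are zero. -/
structure InSha (f : GalL L → M) : Prop where
  cocycle : IsDiscreteCocycle f
  locally_trivial : ∀ A : ValuationSubring Ω, A ≠ ⊤ → CoboundaryOn (Dec K A) f

/-- The sequence `f` is an element of the `p`-adic Tate module of the Tate-Shafarevich group of `M` over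
`L`: the classes `c_n` of the `f n` are in the Tate-Shafarevich group, `c_0 = 0` and `p c_(n+1) = c_n`. -/
structure InTateSha (p : ℕ) (f : ℕ → GalL L → M) : Prop where
  mem : ∀ n, InSha (f n)
  zero : CoboundaryOn Set.univ (f 0)
  step : ∀ n, CoboundaryOn Set.univ fun σ => p • f (n + 1) σ - f n σ

variable (M)

/-- The `p`-adic Tate module of the Tate-Shafarevich group of `M` over `L` is zero: for its elements
`f` all the `f n` are coboundaries. -/
def TateShaZero (p : ℕ) (L : IntermediateField K Ω) : Prop :=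
  ∀ f : ℕ → GalL L → M, InTateSha p f → ∀ n, CoboundaryOn Set.univ (f n)

/-- The restriction from `K` to `L` is an isomorphism `V_p Sha(M / K) → V_p Sha(M / L)` of the rational
`p`-adic Tate modules of the Tate-Shafarevich groups:
* an element `f'` of the Tate module over `K` is zero if the restrictions of all the `f' n` to the
  absolute Galois group of `L` are coboundaries;
* for every element `f` of the Tate module over `L` there are a power `p ^ a` and an element `f'` of the
  Tate module over `K` such that `p ^ a f` is the restriction of `f'`. -/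
structure SameTateSha (p : ℕ) (L : IntermediateField K Ω) : Prop where
  injective : ∀ f' : ℕ → GalL (⊥ : IntermediateField K Ω) → M, InTateSha p f' →
    (∀ n, ∃ P : M, ∀ (σ : GalL L) (τ : GalL (⊥ : IntermediateField K Ω)),
      (τ : Gal K Ω) = (σ : Gal K Ω) → f' n τ = (σ : Gal K Ω) • P - P) →
        ∀ n, CoboundaryOn Set.univ (f' n)
  surjective : ∀ f : ℕ → GalL L → M, InTateSha p f →
    ∃ (a : ℕ) (f' : ℕ → GalL (⊥ : IntermediateField K Ω) → M), InTateSha p f' ∧
      ∀ n, ∃ P : M, ∀ (σ : GalL L) (τ : GalL (⊥ : IntermediateField K Ω)),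
        (τ : Gal K Ω) = (σ : Gal K Ω) → p ^ a • f n σ = f' n τ + ((σ : Gal K Ω) • P - P)

/-- The groups of the points of `M` over `L` and over `K` have the same rank: a nonzero multiple of
every point over `L` is a point over `K`. -/
def SameRank (L : IntermediateField K Ω) : Prop :=
  ∀ P ∈ Fixed M (L.fixingSubgroup : Set (Gal K Ω)), ∃ n : ℕ, n ≠ 0 ∧
    n • P ∈ Fixed M (Set.univ : Set (Gal K Ω))

end mod

/-! ### The properties of the extensions -/

section ext

variable {K Ω : Type} [Field K] [Field Ω] [Algebra K Ω]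

/-- The extension `L / K` is cyclic. -/
def IsCyclicExtension (L : IntermediateField K Ω) : Prop := IsCyclic (L ≃ₐ[K] L)

/-- `L₀ / K` is a Galois extension of degree `p` in which no place in `S` splits. -/
structure Admissible (p : ℕ) (S : Set (Place K)) (L₀ : IntermediateField K Ω) : Prop where
  galois : IsGalois K L₀
  degree : Module.finrank K L₀ = p
  not_splits : ∀ v ∈ S, ¬ Splits L₀ v

/-- `L / K` is a cyclic extension of degree `p` with the same completions as `L₀` at `B`. -/
structure CyclicLike (p : ℕ) (B : Set (Place K)) (L₀ L : IntermediateField K Ω) : Prop where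
  galois : IsGalois K L
  cyclic : IsCyclicExtension L
  degree : Module.finrank K L = p
  completions : ∀ v ∈ B, SameCompletions L L₀ v

/-- No Selmer group grows in `L`: for all representations of `G_K`, congruent to `1` modulo `p` and
unramified outside `S`, the Selmer group over `L` is the image of the Selmer group over `K`. -/
def SelmerStable (p : ℕ) [Fact p.Prime] (S : Set (Place K)) (L : IntermediateField K Ω) : Prop :=
  ∀ (N : ℕ) (ρ : Gal K Ω →* Matrix (Fin N) (Fin N) ℤ_[p]), IsRep S ρ → SelmerComesFromBase S ρ L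

/-- No rank and no Tate-Shafarevich group grows in `L`: for all modules `M` with the properties of the
group of the points of an abelian variety over `K` with good reduction outside `S` and with rational
points of order `p`, the groups of the points over `L` and over `K` have the same rank, and the
restriction is an isomorphism of the rational `p`-adic Tate modules of the Tate-Shafarevich groups; in
particular the Tate module over `L` is zero if and only if that over `K` is zero. -/
def PointsStable (p : ℕ) [Fact p.Prime] (S : Set (Place K)) (L : IntermediateField K Ω) : Prop :=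
  ∀ (M : Type) [AddCommGroup M] [DistribMulAction (Gal K Ω) M], LikePoints Ω M S p →
    SameRank M L ∧ SameTateSha M p L ∧ (TateShaZero M p L ↔ TateShaZero M p (⊥ : IntermediateField K Ω))

end ext

/-! ### Proof of the theorem -/

section proof

open Pool.Agent.NH7.GF

variable {K : Type} [Field K] {p : ℕ} [hp : Fact p.Prime] {N : ℕ}

/-- a set of places as a set of valuation rings -/
def toV (S : Set (Place K)) : Set (ValuationSubring K) := Subtype.val '' S

theorem above_ne {A : ValuationSubring (SeparableClosure K)} {v : Place K} (h : Above A v) : A ≠ ⊤ := by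
  rintro rfl
  apply v.2
  rw [← (h : (⊤ : ValuationSubring (SeparableClosure K)).comap (algebraMap K (SeparableClosure K)) = v.1)]
  ext x
  exact ⟨fun _ => trivial, fun _ => trivial⟩

theorem mem_toV {S : Set (Place K)} {A : ValuationSubring (SeparableClosure K)} {v : Place K}
    (h : Above A v) : A.comap (algebraMap K (SeparableClosure K)) ∈ toV S ↔ v ∈ S := by
  rw [(h : A.comap (algebraMap K (SeparableClosure K)) = v.1)]
  constructor
  · rintro ⟨w, hw, e⟩
    have e' : w = v := Subtype.ext e
    rwa [← e']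
  · exact fun hv => ⟨v, hv, rfl⟩

variable (hb : ∀ A : ValuationSubring (SeparableClosure K), A.comap (algebraMap K (SeparableClosure K)) = ⊤ → A = ⊤)

include hb

theorem below {A : ValuationSubring (SeparableClosure K)} (hA : A ≠ ⊤) : ∃ v : Place K, Above A v :=
  ⟨⟨_, fun h => hA (hb A h)⟩, rfl⟩

theorem repF_of {S : Set (Place K)} {ρ : Gal K (SeparableClosure K) →* Matrix (Fin N) (Fin N) ℤ_[p]}
    (h : IsRep S ρ) : RepF (toV S) ρ := by
  refine ⟨h.cont, h.congr, fun A hA hAS g hg => ?_⟩
  obtain ⟨v, hv⟩ := below hb hA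
  exact h.unramified v (fun h1 => hAS ((mem_toV hv).2 h1)) A hv g hg

theorem selQ_iff {S : Set (Place K)} {ρ : Gal K (SeparableClosure K) →* Matrix (Fin N) (Fin N) ℤ_[p]}
    {L : IntermediateField K (SeparableClosure K)} {c : GalL L → Fin N → ℚ_[p]} :
    SelQ (toV S) ρ L.fixingSubgroup c ↔ IsCocycle ρ c ∧ InSelmer S ρ c := by
  constructor
  · intro h
    refine ⟨⟨h.cont, h.mul⟩, ⟨fun v hv A hA => ?_, fun v hv A hA => ?_⟩⟩
    · exact h.strict A (above_ne hA) ((mem_toV hA).2 hv)
    · exact h.away A (above_ne hA) fun h1 => hv ((mem_toV hA).1 h1)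
  · rintro ⟨h1, h2⟩
    refine ⟨h1.cont, h1.mul, fun A hA hAS => ?_, fun A hA hAS => ?_⟩
    · obtain ⟨v, hv⟩ := below hb hA
      exact h2.outside v (fun h3 => hAS ((mem_toV hv).2 h3)) A hv
    · obtain ⟨v, hv⟩ := below hb hA
      exact h2.strict v ((mem_toV hv).1 hAS) A hv

omit hb in
/-- the conclusion for subgroups -/
def Des (S : Set (ValuationSubring K)) (ρ : Gal K (SeparableClosure K) →* Matrix (Fin N) (Fin N) ℤ_[p])
    (H H₀ : Subgroup (Gal K (SeparableClosure K))) : Prop :=
  ∀ c : H → Fin N → ℚ_[p], SelQ S ρ H c → ∃ c' : H₀ → Fin N → ℚ_[p], SelQ S ρ H₀ c' ∧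
    ∃ x : Fin N → ℚ_[p], ∀ (σ : H) (τ : H₀), (τ : Gal K (SeparableClosure K)) = σ → c σ = c' τ + (mQ (ρ σ) x - x)

theorem comes_iff {S : Set (Place K)} {ρ : Gal K (SeparableClosure K) →* Matrix (Fin N) (Fin N) ℤ_[p]}
    {L : IntermediateField K (SeparableClosure K)} : SelmerComesFromBase S ρ L ↔
      Des (toV S) ρ L.fixingSubgroup (⊥ : IntermediateField K (SeparableClosure K)).fixingSubgroup := by
  constructor
  · intro h c hc
    obtain ⟨h1, h2⟩ := (selQ_iff hb).1 hc
    obtain ⟨c', h3, h4, x, hx⟩ := h c h1 h2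
    exact ⟨c', (selQ_iff hb).2 ⟨h3, h4⟩, x, hx⟩
  · intro h c h1 h2
    obtain ⟨c', h3, x, hx⟩ := h c ((selQ_iff hb).2 ⟨h1, h2⟩)
    exact ⟨c', ((selQ_iff hb).1 h3).1, ((selQ_iff hb).1 h3).2, x, hx⟩

omit hb

omit hp in
theorem inT_iff {M : Type} [AddCommGroup M] [DistribMulAction (Gal K (SeparableClosure K)) M]
    {L : IntermediateField K (SeparableClosure K)} (f : ℕ → GalL L → M) :
    InTateSha p f ↔ (∀ n, ShM (DsF K) L.fixingSubgroup (f n)) ∧
      (∃ m : M, ∀ σ : L.fixingSubgroup, f 0 σ = (σ : Gal K (SeparableClosure K)) • m - m) ∧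
      ∀ n, ∃ m : M, ∀ σ : L.fixingSubgroup,
        p • f (n + 1) σ = f n σ + ((σ : Gal K (SeparableClosure K)) • m - m) := by
  have h1 : ∀ f : GalL L → M, InSha f ↔ ShM (DsF K) L.fixingSubgroup f := by
    intro f
    constructor
    · intro h
      refine ⟨⟨h.cocycle.cont, h.cocycle.mul⟩, ?_⟩
      rintro D ⟨A, hA, rfl⟩
      exact h.locally_trivial A hA
    · intro h
      exact ⟨⟨h.coc.loc, h.coc.mul⟩, fun A hA => h.tri _ ⟨A, hA, rfl⟩⟩
  have h2 : ∀ f : GalL L → M, CoboundaryOn Set.univ f ↔
      ∃ m : M, ∀ σ : L.fixingSubgroup, f σ = (σ : Gal K (SeparableClosure K)) • m - m := by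
    intro f
    constructor
    · rintro ⟨m, hm⟩
      exact ⟨m, fun σ => hm σ (Set.mem_univ _)⟩
    · rintro ⟨m, hm⟩
      exact ⟨m, fun σ _ => hm σ⟩
  have h3 : ∀ (f g : GalL L → M), CoboundaryOn Set.univ (fun σ => p • g σ - f σ) ↔
      ∃ m : M, ∀ σ : L.fixingSubgroup, p • g σ = f σ + ((σ : Gal K (SeparableClosure K)) • m - m) := by
    intro f g
    rw [h2]
    refine exists_congr fun m => forall_congr' fun σ => ?_
    rw [sub_eq_iff_eq_add, add_comm]
  constructor
  · intro h
    exact ⟨fun n => (h1 _).1 (h.mem n), (h2 _).1 h.zero, fun n => (h3 _ _).1 (h.step n)⟩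
  · rintro ⟨h4, h5, h6⟩
    exact ⟨fun n => (h1 _).2 (h4 n), (h2 _).2 h5, fun n => (h3 _ _).2 (h6 n)⟩

omit hp in
theorem cob_iff {M : Type} [AddCommGroup M] [DistribMulAction (Gal K (SeparableClosure K)) M]
    {L : IntermediateField K (SeparableClosure K)} (f : GalL L → M) : CoboundaryOn Set.univ f ↔
      ∃ m : M, ∀ σ : L.fixingSubgroup, f σ = (σ : Gal K (SeparableClosure K)) • m - m := by
  constructor
  · rintro ⟨m, hm⟩
    exact ⟨m, fun σ => hm σ (Set.mem_univ _)⟩
  · rintro ⟨m, hm⟩
    exact ⟨m, fun σ _ => hm σ⟩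

omit hp in
theorem tsh_iff {M : Type} [AddCommGroup M] [DistribMulAction (Gal K (SeparableClosure K)) M]
    {L : IntermediateField K (SeparableClosure K)} :
    TateShaZero M p L ↔ TSh M p (DsF K) L.fixingSubgroup := by
  constructor
  · intro h f hf h0 hs n
    exact (cob_iff _).1 (h f ((inT_iff f).2 ⟨hf, h0, hs⟩) n)
  · intro h f hf n
    obtain ⟨h1, h2, h3⟩ := (inT_iff f).1 hf
    exact (cob_iff _).2 (h f h1 h2 h3 n)

omit hp in
/-- the isomorphism of the rational Tate modules for subgroups -/
def SameT (M : Type) [AddCommGroup M] [DistribMulAction (GK K) M] (p : ℕ) (Ds : Set (Subgroup (GK K)))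
    (H H₀ : Subgroup (GK K)) : Prop :=
  (∀ f' : ℕ → H₀ → M, ((∀ n, ShM Ds H₀ (f' n)) ∧
      (∃ m : M, ∀ τ : H₀, f' 0 τ = (τ : GK K) • m - m) ∧
      ∀ n, ∃ m : M, ∀ τ : H₀, p • f' (n + 1) τ = f' n τ + ((τ : GK K) • m - m)) →
    (∀ n, ∃ P : M, ∀ (σ : H) (τ : H₀), (τ : GK K) = (σ : GK K) → f' n τ = (σ : GK K) • P - P) →
      ∀ n, ∃ m : M, ∀ τ : H₀, f' n τ = (τ : GK K) • m - m) ∧
  ∀ f : ℕ → H → M, ((∀ n, ShM Ds H (f n)) ∧
      (∃ m : M, ∀ σ : H, f 0 σ = (σ : GK K) • m - m) ∧
      ∀ n, ∃ m : M, ∀ σ : H, p • f (n + 1) σ = f n σ + ((σ : GK K) • m - m)) →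
    ∃ (a : ℕ) (f' : ℕ → H₀ → M), ((∀ n, ShM Ds H₀ (f' n)) ∧
      (∃ m : M, ∀ τ : H₀, f' 0 τ = (τ : GK K) • m - m) ∧
      ∀ n, ∃ m : M, ∀ τ : H₀, p • f' (n + 1) τ = f' n τ + ((τ : GK K) • m - m)) ∧
      ∀ n, ∃ P : M, ∀ (σ : H) (τ : H₀), (τ : GK K) = (σ : GK K) →
        p ^ a • f n σ = f' n τ + ((σ : GK K) • P - P)

omit hp in
theorem same_of {M : Type} [AddCommGroup M] [DistribMulAction (Gal K (SeparableClosure K)) M]
    {L : IntermediateField K (SeparableClosure K)}
    (h : SameT M p (DsF K) L.fixingSubgroup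
      (⊥ : IntermediateField K (SeparableClosure K)).fixingSubgroup) : SameTateSha M p L := by
  constructor
  · intro f' hf' hr n
    exact (cob_iff _).2 (h.1 f' ((inT_iff f').1 hf') hr n)
  · intro f hf
    obtain ⟨a, f', h1, h2⟩ := h.2 f ((inT_iff f).1 hf)
    exact ⟨a, f', (inT_iff f').2 h1, h2⟩

theorem norm_iff (x : Fin N → ℚ_[p]) : (∀ j, ‖x j‖ ≤ 1) ↔ ∃ z : Fin N → ℤ_[p], x = cQ z := by
  constructor
  · intro h
    exact ⟨fun j => ⟨x j, h j⟩, rfl⟩
  · rintro ⟨z, rfl⟩ j
    exact (z j).2

theorem fin_index {χ : GK K → ZMod p} (hχ : Hm χ) : (kerX hχ).FiniteIndex := by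
  have : NeZero p := ⟨hp.out.ne_zero⟩
  let f : GK K →* Multiplicative (ZMod p) :=
    { toFun := fun g => Multiplicative.ofAdd (χ g)
      map_one' := by
        rw [hm_one hχ]
        rfl
      map_mul' := fun g h => by
        rw [hχ.m]
        rfl }
  have e : f.ker = kerX hχ := by
    ext g
    rw [MonoidHom.mem_ker, mem_kerX]
    exact ofAdd_eq_one
  rw [← e]
  exact Subgroup.finiteIndex_ker f

theorem ld_of {M : Type} [AddCommGroup M] [DistribMulAction (Gal K (SeparableClosure K)) M] {S : Set (Place K)}
    (hM : LikePoints (SeparableClosure K) M S p) {χ : GK K → ZMod p} (hχ : Hm χ) :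
    ∀ D ∈ DsF K, Ld M p (D ⊓ kerX hχ) := by
  rintro D ⟨A, hA, rfl⟩ P hP n
  exact hM.local_points A hA (kerX hχ) (kerX_open hχ) P hP n

end proof

open Pool.Agent.NH7.GF in
/-- **The theorem.** Let `K` be a global function field, `p` an odd prime number such that `K` contains a
primitive `p`-th root of unity and `S` a finite set of places of `K`. There are extensions `L₀ / K` of
degree `p`, Galois, in which no place in `S` splits. For every such `L₀` and every finite set `B` of
places there are infinitely many cyclic extensions `L / K` of degree `p` with the same completions as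
`L₀` at `B` such that:
* for all continuous representations `ρ` of the absolute Galois group of `K`, congruent to `1` modulo `p`
  and unramified outside `S`, the Selmer group over `L` is the image of the Selmer group over `K`;
* for all modules `M` with the properties of the group of the points of an abelian variety over `K` with
  good reduction outside `S` and with rational points of order `p`, the groups of the points over `L` and
  over `K` have the same rank, and the restriction is an isomorphism of the rational `p`-adic Tate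
  modules of the Tate-Shafarevich groups over `K` and over `L`; in particular the `p`-adic Tate module
  over `L` is zero if and only if that over `K` is zero. -/
theorem result {k : Type} [Field k] [Finite k] {K : Type} [Field K] [Algebra k K]
    [Algebra.EssFiniteType k K] (htr : Algebra.trdeg k K = 1) {p : ℕ} [Fact p.Prime]
    (hp2 : p ≠ 2) (hz : ∃ z : K, IsPrimitiveRoot z p) {S : Set (Place K)} (hS : S.Finite) :
    (∃ L₀ : IntermediateField K (SeparableClosure K), Admissible p S L₀) ∧
    ∀ L₀ : IntermediateField K (SeparableClosure K), Admissible p S L₀ → ∀ B : Set (Place K), B.Finite →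
      {L : IntermediateField K (SeparableClosure K) | CyclicLike p B L₀ L ∧ SelmerStable p S L ∧
        PointsStable p S L}.Infinite := by
  classical
  have : FF.IsFF k K := ⟨inferInstance, htr⟩
  obtain ⟨ζ, hζ⟩ := hz
  have hb := (s_plc k K).2
  have hSf : (toV S).Finite := hS.image _
  refine ⟨?_, ?_⟩
  · obtain ⟨χ, hχ, ⟨g, hg⟩, hram⟩ := exists_ram k hζ hSf
    obtain ⟨σ, hσ⟩ := hm_ex hχ hg
    refine ⟨fld hχ, fld_gal hχ, (fld_cyc hχ hσ).2, fun v hv hsp => ?_⟩
    obtain ⟨v', hv'⟩ := (s_plc k K).1 v.1 v.2
    have hab : Above (Av v') v :=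
      Eq.trans ((t_lf (k := k) hζ).ab v' :
        (Av v').comap (algebraMap K (SeparableClosure K)) = v'.O) hv'
    obtain ⟨g, hg, hg0⟩ := hram (Av v') (above_ne hab) ((mem_toV hab).2 hv)
    exact hg0 ((fld_iff hχ g).2 (hsp (Av v') hab g hg.1))
  rintro L₀ ⟨hgal₀, hdeg₀, hsplit⟩ B hB
  obtain ⟨χ₀, h0, hχ₀⟩ := exists_hm L₀ ⟨hgal₀, hdeg₀⟩
  intro hfin
  set F := {L : IntermediateField K (SeparableClosure K) | CyclicLike p B L₀ L ∧ SelmerStable p S L ∧
        PointsStable p S L} with hF
  -- the ramified places of the fields in `F`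
  have hram : ∀ L : IntermediateField K (SeparableClosure K), ∃ T : Set (ValuationSubring K), T.Finite ∧
      (L ∈ F → ∀ A : ValuationSubring (SeparableClosure K), A ≠ ⊤ →
        A.comap (algebraMap K (SeparableClosure K)) ∉ T → ∀ g ∈ Pool.Agent.NH7.GF.Inr A, ∀ x ∈ L, g x = x) := by
    intro L
    by_cases hL : L ∈ F
    · obtain ⟨x, hx, hxL⟩ := exists_hm (p := p) L ⟨hL.1.galois, hL.1.degree⟩
      obtain ⟨T, hT, hT'⟩ := fin_ram k hζ hx
      exact ⟨T, hT, fun _ A hA hAT g hg => (hxL g).1 (hT' A hA hAT g hg)⟩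
    · exact ⟨∅, Set.finite_empty, fun h => absurd h hL⟩
  choose T hTf hT using hram
  let B' : Set (ValuationSubring K) := toV B ∪ ⋃ L ∈ F, T L
  have hB' : B'.Finite := (hB.image _).union (hfin.biUnion fun L _ => hTf L)
  have hs : ∀ O ∈ toV S, O ≠ ⊤ → ∃ A : ValuationSubring (SeparableClosure K),
      A.comap (algebraMap K (SeparableClosure K)) = O ∧
        ∃ g ∈ Pool.Agent.NH7.GF.Dec A, χ₀ g ≠ 0 := by
    rintro O ⟨v, hv, rfl⟩ -
    by_contra hne
    push Not at hne
    exact hsplit v hv fun A hA σ hσ => (hχ₀ σ).1 (hne A hA σ hσ)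
  obtain ⟨χ, hχ, ⟨σ, hσ⟩, hloc, ⟨A, hA, hAB, g, hg, hg0⟩, hmain⟩ :=
    main_sel hζ (t_lf (k := k) hζ) (t_gl hζ hp2) t_char hp2 s_cnj s_plc t_cmp
      Pool.Agent.NH7.BK.s_int hSf hB' h0 hs
  have hfix : (fld hχ).fixingSubgroup = kerX hχ := fld_fix hχ
  have hcyc := fld_cyc hχ hσ
  have hL : fld hχ ∈ F := by
    refine ⟨⟨fld_gal hχ, hcyc.1, hcyc.2, fun v hv A hA s hs => ?_⟩, fun N ρ hρ => ?_, ?_⟩
    · rw [← fld_iff hχ, ← hχ₀, hloc A (above_ne hA) (Or.inl ((mem_toV hA).2 hv)) s hs]
    · rw [comes_iff hb, hfix, IntermediateField.fixingSubgroup_bot]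
      exact hmain N ρ (repF_of hb hρ)
    · intro M _ _ hM
      obtain ⟨N, ρ, φ, hρ, hker, htor, heqv⟩ := hM.torsion
      have hMo : Mo ρ M φ := ⟨hM.open_stabilizer, hM.divisible,
        fun x => (hker x).trans (norm_iff x), htor, heqv⟩
      have hdsc : Dsc (DsF K) ρ (kerX hχ) :=
        dsc_of_sel s_avg hχ (hmain N ρ (repF_of hb hρ))
      have hld := ld_of hM hχ
      have hnor := kerX_normal hχ
      have hfi := fin_index hχ
      have t_lft : S_lft := s_lft s_ulim
      have t_lcl : S_lcl := s_lcl s_cpt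
      constructor
      · intro P hP
        rw [hfix] at hP
        obtain ⟨n, hn, hn'⟩ := s_rk t_lft t_lcl p (GK K) N ρ M φ hMo (DsF K) (kerX hχ) hld hdsc
          (hM.mordell_weil (kerX hχ) (kerX_open hχ)) P hP
        exact ⟨n, hn, fun τ _ => hn' τ (Subgroup.mem_top τ)⟩
      refine ⟨same_of ?_, ?_⟩
      · rw [hfix, IntermediateField.fixingSubgroup_bot]
        refine ⟨fun f' hf' hr => Pool.Agent.NH7.GH.inj_tate s_avg p (GK K) χ hχ.m (kerX hχ)
          (fun g => Iff.rfl) M (DsF K) f' hf'.1 hf'.2.2 fun n => ?_, fun f hf => ?_⟩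
        · obtain ⟨P, hP⟩ := hr n
          exact ⟨P, fun σ => hP σ ⟨σ, Subgroup.mem_top _⟩ rfl⟩
        · obtain ⟨a, f', h1, h2, h3, h4⟩ := Pool.Agent.NH7.GH.up_tate t_lft s_avg
            Pool.Agent.NH7.BK.s_int p (GK K) N ρ M φ hMo χ hχ.m (DsF K) (kerX hχ)
            (fun g => Iff.rfl) (Pool.Agent.NH7.GH.dscT_of_dsc t_lcl p (GK K) N ρ M φ hMo (DsF K)
              (kerX hχ) hld hdsc) f hf.1 hf.2.1 hf.2.2
          exact ⟨a, f', ⟨h1, h2, h3⟩, h4⟩
      · rw [tsh_iff, tsh_iff, hfix, IntermediateField.fixingSubgroup_bot]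
        exact ⟨s_dn s_avg p (GK K) χ hχ.c hχ.m (kerX hχ) (fun g => Iff.rfl) M (DsF K),
          s_up t_lft t_lcl Pool.Agent.NH7.BK.s_int p (GK K) N ρ M φ hMo (DsF K) (kerX hχ) hld
            hdsc⟩
  refine hg0 ((fld_iff hχ g).2 (hT _ hL A hA (fun h => hAB (Or.inr ?_)) g hg))
  exact Set.mem_biUnion hL h

end Pool.Agent.Results.MP_72e2e6_nt.GoingUpResiduallyTrivial
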