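import Pool.Agent.NH7.Cub.Rk1
import Pool.Agent.NH7.Cub.Gal2

/-!
# Twists of rank one over towers of quadratic extensions of `k(s)`

The definitions of `Gal`, of the groups of points, of continuous cocycles, of `ShaTwoTrivial` and of
`ShaTateTrivial` are in `Pool.Agent.W309.TD.Stmt`, the definition of `TwoTower` is in
`Pool.Agent.NH7.Cub.Tower`.
-/

set_option autoImplicit false
set_option linter.all false

open Polynomial IsDedekindDomain

namespace Pool.Agent.Results.MP_72e2e6_nt.RankOneTwists

open Pool.Agent.W309.Sha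

/-- The quadratic twist `D y ^ 2 = x ^ 3 + a x ^ 2 + b x + c - s` over an extension `L` of `k(s)`,
where `s` is the image of `X`, in Weierstrass form
`y ^ 2 = x ^ 3 + D a x ^ 2 + D ^ 2 b x + D ^ 3 (c - s)`. -/
noncomputable def E {k : Type} [Field k] (a b c : k) {L : Type} [Field L] [Algebra k[X] L] (D : L) :
    WeierstrassCurve L where
  a₁ := 0
  a₂ := D * algebraMap k[X] L (C a)
  a₃ := 0
  a₄ := D ^ 2 * algebraMap k[X] L (C b)
  a₆ := D ^ 3 * algebraMap k[X] L (C c - X)

section primes

variable {k : Type} [Field k] {S : Type} [CommRing S] [IsDedekindDomain S] [Algebra k[X] S]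

/-- The maximal ideal `w` of `S` is ramified over `k[s]`. -/
def IsRamified (w : HeightOneSpectrum S) : Prop :=
  (w.asIdeal.under k[X]).map (algebraMap k[X] S) ≤ w.asIdeal ^ 2

/-- The maximal ideal `w` of `S` lies over a prime `π` of `k[s]` such that the polynomial
`x ^ 3 + a x ^ 2 + b x + c - s` has no root in `k[s] / π`. -/
def IsSilent (a b c : k) (w : HeightOneSpectrum S) : Prop :=
  ∀ g : k[X], g ^ 3 + C a * g ^ 2 + C b * g + C c - X ∉ w.asIdeal.under k[X]

/-- The value at `x` in `S` of the polynomial `x ^ 3 + a x ^ 2 + b x + c - s`. -/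
noncomputable def value (a b c : k) (x : S) : S :=
  x ^ 3 + algebraMap k[X] S (C a) * x ^ 2 + algebraMap k[X] S (C b) * x +
    algebraMap k[X] S (C c - X)

/-- The polynomial `x ^ 3 + a x ^ 2 + b x + c - s` has at most one root in `S / w`, and a root is
simple. -/
def HasOneRoot (a b c : k) (w : HeightOneSpectrum S) : Prop :=
  (∀ x y : S, value a b c x ∈ w.asIdeal → value a b c y ∈ w.asIdeal → x - y ∈ w.asIdeal) ∧
  ∀ x : S, value a b c x ∈ w.asIdeal →
    3 * x ^ 2 + 2 * algebraMap k[X] S (C a) * x + algebraMap k[X] S (C b) ∉ w.asIdeal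

end primes

open scoped Classical in
/-- Let `k` be a finite field of odd characteristic, `a ^ 2 ≠ 3 b`, and let `L` be a finite
extension of `K = k(s)` which is a tower of quadratic extensions, for instance a Galois extension
whose degree is a power of two. Let `S` be the integral closure of `k[s]` in `L`, let `D ≠ 0` in
`L` and let `(x₀, y₀)` be a point over `L` of the curve
`E : D y ^ 2 = x ^ 3 + a x ^ 2 + b x + c - s`. Assume that there is a maximal ideal `w₀` of `S` which
is unramified over `k[s]`, at which `D` has odd valuation and `x₀` is integral, and modulo which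
`x ^ 3 + a x ^ 2 + b x + c - s` has at most one root (in fact exactly one, the class of `x₀`), which
is simple. Assume that every other maximal ideal of `S` which is ramified over `k[s]` or at which `D`
has odd valuation lies over a prime `π` of `k[s]` for which `x ^ 3 + a x ^ 2 + b x + c - s` has no
root in `k[s] / π`. Then `E(L)` has no element of order two, `E(L) / 2 E(L)` has order two, every
class of 2-power order in `H ^ 1 (L, E)` which is zero over the completions at all maximal ideals of
`S` is zero, and the 2-adic Tate module of the Tate-Shafarevich group is zero. -/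
theorem result (k : Type) [Field k] [Finite k] (h2 : (2 : k) ≠ 0) (a b c : k)
    (hab : a ^ 2 ≠ 3 * b) (L : Type) [Field L] [Algebra (RatFunc k) L] [Algebra k[X] L]
    [IsScalarTower k[X] (RatFunc k) L]
    (hL : NH7.Cub.TwoTower (RatFunc k) L ∨
      (IsGalois (RatFunc k) L ∧ ∃ n : ℕ, Module.finrank (RatFunc k) L = 2 ^ n))
    (S : Type) [CommRing S] [IsDedekindDomain S] [Algebra k[X] S] [Algebra S L]
    [IsScalarTower k[X] S L] [IsFractionRing S L] [IsIntegralClosure S k[X] L]
    (D : L) (hD : D ≠ 0) (x₀ y₀ : L)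
    (hxy : D * y₀ ^ 2 = x₀ ^ 3 + algebraMap k[X] L (C a) * x₀ ^ 2 +
      algebraMap k[X] L (C b) * x₀ + algebraMap k[X] L (C c - X))
    (w₀ : HeightOneSpectrum S) (hun : ¬ IsRamified (k := k) w₀)
    (hodd : ¬ IsSquare (w₀.valuation L D)) (hx₀ : w₀.valuation L x₀ ≤ 1)
    (hone : HasOneRoot a b c w₀)
    (hram : ∀ w : HeightOneSpectrum S, w ≠ w₀ →
      IsRamified (k := k) w ∨ ¬ IsSquare (w.valuation L D) → IsSilent a b c w) :
    (∀ T : Points (E a b c D) L, T + T = 0 → T = 0) ∧
      (∃ P₀ : Points (E a b c D) L, (∀ Q, Q + Q ≠ P₀) ∧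
        ∀ P : Points (E a b c D) L, ∃ Q, P = Q + Q ∨ P = P₀ + (Q + Q)) ∧
      ShaTwoTrivial S (E a b c D) ∧ ShaTateTrivial S (E a b c D) := by
  haveI : Algebra.IsIntegral k[X] S := IsIntegralClosure.isIntegral_algebra k[X] L
  have h2K : (2 : RatFunc k) ≠ 0 := by
    have h3 : algebraMap k[X] (RatFunc k) (C (2 : k)) ≠ 0 := by
      rw [Ne, map_eq_zero_iff _ (IsFractionRing.injective k[X] (RatFunc k)), C_eq_zero]
      exact h2
    rwa [map_ofNat, map_ofNat] at h3
  have hL' : NH7.Cub.TwoTower (RatFunc k) L := by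
    rcases hL with h | ⟨hG, n, hn⟩
    · exact h
    · exact NH7.Cub.twoTower_of_galois n (RatFunc k) L h2K hn
  obtain ⟨⟨h1, h3⟩, h4, h5⟩ := NH7.Cub.rk_tower (K := RatFunc k) (S := S) h2 hL' a b c hab D hD w₀
    hun hodd ⟨hone.1, hone.2⟩ hram x₀ y₀ hxy hx₀
  exact ⟨h1, h3, h4, h5⟩

end Pool.Agent.Results.MP_72e2e6_nt.RankOneTwists
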