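import Pool.Agent.NH7.Cub.Fin2
import Pool.Agent.NH7.Cub.Gal2

/-!
# Tate-Shafarevich groups over towers of quadratic extensions of `k(s)`

The definitions of `Gal`, of the groups of points, of continuous cocycles, of `ShaTwoTrivial` and of
`ShaTateTrivial` are in `Pool.Agent.W309.TD.Stmt`, the definition of `TwoTower` is in
`Pool.Agent.NH7.Cub.Tower`.
-/

set_option autoImplicit false
set_option linter.all false

open Polynomial IsDedekindDomain

namespace Pool.Agent.Results.MP_72e2e6_nt.TowersOfQuadraticExtensions

open Pool.Agent.W309.Sha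

/-- The quadratic twist `D y ^ 2 = x ^ 3 + a x ^ 2 + b x + c - s` over an extension `L` of `k(s)`,
where `s` is the image of `X`, in Weierstrass form
`y ^ 2 = x ^ 3 + D a x ^ 2 + D ^ 2 b x + D ^ 3 (c - s)`. -/
noncomputable def E {k : Type} [Field k] (a b c : k) {L : Type} [Field L] [Algebra k[X] L] (D : L) :
    WeierstrassCurve L where
  a₁ := 0
  a₂ := D * algebraMap k[X] L (C a)
  a₃ := 0
  a₄ := D ^ 2 * algebraMap k[X] L (C b)
  a₆ := D ^ 3 * algebraMap k[X] L (C c - X)

section primes

variable {k : Type} [Field k] {S : Type} [CommRing S] [IsDedekindDomain S] [Algebra k[X] S]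

/-- The maximal ideal `w` of `S` is ramified over `k[s]`. -/
def IsRamified (w : HeightOneSpectrum S) : Prop :=
  (w.asIdeal.under k[X]).map (algebraMap k[X] S) ≤ w.asIdeal ^ 2

/-- The maximal ideal `w` of `S` lies over a prime `π` of `k[s]` such that the polynomial
`x ^ 3 + a x ^ 2 + b x + c - s` has no root in `k[s] / π`. -/
def IsSilent (a b c : k) (w : HeightOneSpectrum S) : Prop :=
  ∀ g : k[X], g ^ 3 + C a * g ^ 2 + C b * g + C c - X ∉ w.asIdeal.under k[X]

end primes

open scoped Classical in
/-- Let `k` be a finite field of odd characteristic, `a ^ 2 ≠ 3 b`, and let `L` be a finite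
extension of `K = k(s)` which is a tower of quadratic extensions, for instance a Galois extension
whose degree is a power of two. Let `S` be the integral closure of `k[s]` in `L` and let `D ≠ 0` in
`L`. Assume that every maximal ideal of `S` which is ramified over `k[s]` or at which `D` has odd
valuation lies over a prime `π` of `k[s]` for which `x ^ 3 + a x ^ 2 + b x + c - s` has no root in
`k[s] / π`. Then for the elliptic curve `E : D y ^ 2 = x ^ 3 + a x ^ 2 + b x + c - s` over `L`
multiplication by two is bijective on `E(L)`, every class of 2-power order in `H ^ 1 (L, E)` which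
is zero over the completions at all maximal ideals of `S` is zero, and the 2-adic Tate module of the
Tate-Shafarevich group is zero. -/
theorem result (k : Type) [Field k] [Finite k] (h2 : (2 : k) ≠ 0) (a b c : k)
    (hab : a ^ 2 ≠ 3 * b) (L : Type) [Field L] [Algebra (RatFunc k) L] [Algebra k[X] L]
    [IsScalarTower k[X] (RatFunc k) L]
    (hL : NH7.Cub.TwoTower (RatFunc k) L ∨
      (IsGalois (RatFunc k) L ∧ ∃ n : ℕ, Module.finrank (RatFunc k) L = 2 ^ n))
    (S : Type) [CommRing S] [IsDedekindDomain S] [Algebra k[X] S] [Algebra S L]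
    [IsScalarTower k[X] S L] [IsFractionRing S L] [IsIntegralClosure S k[X] L]
    (D : L) (hD : D ≠ 0)
    (hram : ∀ w : HeightOneSpectrum S,
      IsRamified (k := k) w ∨ ¬ IsSquare (w.valuation L D) → IsSilent a b c w) :
    (∀ P : Points (E a b c D) L, ∃! Q : Points (E a b c D) L, Q + Q = P) ∧
      ShaTwoTrivial S (E a b c D) ∧ ShaTateTrivial S (E a b c D) := by
  haveI : Algebra.IsIntegral k[X] S := IsIntegralClosure.isIntegral_algebra k[X] L
  have h2K : (2 : RatFunc k) ≠ 0 := by
    have h3 : algebraMap k[X] (RatFunc k) (C (2 : k)) ≠ 0 := by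
      rw [Ne, map_eq_zero_iff _ (IsFractionRing.injective k[X] (RatFunc k)), C_eq_zero]
      exact h2
    rwa [map_ofNat, map_ofNat] at h3
  have hL' : NH7.Cub.TwoTower (RatFunc k) L := by
    rcases hL with h | ⟨hG, n, hn⟩
    · exact h
    · exact NH7.Cub.twoTower_of_galois n (RatFunc k) L h2K hn
  exact NH7.Cub.main_tw (K := RatFunc k) (S := S) h2 hL' a b c hab D hD hram

end Pool.Agent.Results.MP_72e2e6_nt.TowersOfQuadraticExtensions
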